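import Pool.Agent.Helper78.AO.Goals

/-!
# Project AO, packet PTG: the algorithm runs in polynomial time
-/

set_option autoImplicit false

namespace Pool.Agent.Helper59.AO

open Pool.Agent.Helper78.AO Pool.Agent.Helper78.DT Pool.Agent.Helper81.CC Pool.Agent.Helper16.DT

theorem psdg {α : Type} [ToData α] (R : α → ℕ → ℕ → (ℕ → ℕ) → (ℕ → Bool) → Bool) (m : α → ℕ)
    (hR : PolyR R) (hm : PolyTime m) (c a β : ℕ) {L : α → ℕ} (hL : PolyTime L) (hL2 : ∀ x, 2 ≤ L x) :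
    PolyTime fun z : α × ℕ => sdg (R z.1) (m z.1) c a β (L z.1) z.2 := by
  have hPtn : PtnStmt := Pool.Agent.Helper87.DT.ptn
  have hPtl : PtlStmt := Pool.Agent.Helper3.DT.ptl
  have hNpr : NprStmt := npr
  have hCpw : CpwStmt := cpwS
  have hx : PolyTime fun z : α × ℕ => z.1 := PolyTime.fst PolyTime.id'
  have hLz : PolyTime fun z : α × ℕ => L z.1 := PolyTime.comp hL hx
  -- on triples
  have hzz : PolyTime fun w : (α × ℕ) × ℕ => w.1 := PolyTime.fst PolyTime.id'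
  have hLw : PolyTime fun w : (α × ℕ) × ℕ => L w.1.1 :=
    PolyTime.comp (g := fun z : α × ℕ => L z.1) hLz hzz
  have hvw : PolyTime fun w : (α × ℕ) × ℕ => w.2 := PolyTime.snd PolyTime.id'
  -- on quadruples
  have hww : PolyTime fun y : ((α × ℕ) × ℕ) × ℕ => y.1 := PolyTime.fst PolyTime.id'
  have hLy : PolyTime fun y : ((α × ℕ) × ℕ) × ℕ => L y.1.1.1 :=
    PolyTime.comp (g := fun w : (α × ℕ) × ℕ => L w.1.1) hLw hww
  have hiw : PolyTime fun w : (α × ℕ) × ℕ => w.1.2 :=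
    PolyTime.comp (g := fun z : α × ℕ => z.2) (PolyTime.snd PolyTime.id') hzz
  have hiy : PolyTime fun y : ((α × ℕ) × ℕ) × ℕ => y.1.1.2 :=
    PolyTime.comp (g := fun w : (α × ℕ) × ℕ => w.1.2) hiw hww
  have hjy : PolyTime fun y : ((α × ℕ) × ℕ) × ℕ => y.2 := PolyTime.snd PolyTime.id'
  have hAw : PolyTime fun y : ((α × ℕ) × ℕ) × ℕ => dg (PP c (L y.1.1.1)) y.1.1.2 y.2 :=
    (hPtn _).2 _ _ _ (pPP hPtl c hLy) hiy hjy
  have hdiv : PolyTime fun y : ((α × ℕ) × ℕ) × ℕ =>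
      y.1.1.2 / PP c (L y.1.1.1) ^ (tt a (L y.1.1.1) + 2) :=
    pdivpow hPtl hCpw hiy (pPP hPtl c hLy) (PolyTime.add (ptt hPtl a hLy) (PolyTime.const 2))
      fun y => PP_pos hNpr c (hL2 _)
  have hdiv2 : PolyTime fun y : ((α × ℕ) × ℕ) × ℕ =>
      y.1.1.2 / PP c (L y.1.1.1) ^ (tt a (L y.1.1.1) + 2) / RR c (L y.1.1.1) ^ dd a (L y.1.1.1) :=
    pdivpow hPtl hCpw hdiv (pRR hPtl c hLy) (pdd hPtl a hLy fun y => hL2 _) fun y => RR_pos hNpr c (hL2 _)
  unfold sdg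
  refine hR (α × ℕ) (fun z => z.1) (fun z => KK c a β (L z.1))
    (fun z => tt a (L z.1)) _ _ hx (pKK hPtl c a β hLz) (ptt hPtl a hLz) ?_ ?_
  · exact ppt hPtn (pPP hPtl c hLw) (pKK hPtl c a β hLw) (ptt hPtl a hLw) hLw hvw hAw
      fun w => PP_pos hNpr c (hL2 _)
  · unfold cut
    refine PolyTime.and (PolyTime.decide_lt hvw (PolyTime.comp hm (PolyTime.comp hx hzz))) ?_
    refine pcn hPtn (pRR hPtl c hLw) (pPP hPtl c hLw) (pKK hPtl c a β hLw) (ptt hPtl a hLw) hLw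
      (pdd hPtl a hLw fun w => hL2 _) hvw hAw ?_ ?_ (fun w => PP_pos hNpr c (hL2 _))
      fun w => RR_pos hNpr c (hL2 _)
    · exact (hPtn _).2 _ _ _ (pRR hPtl c hLy) hdiv hjy
    · exact (hPtn _).2 _ _ _ (PolyTime.mul (pqn c hLy) (pPP hPtl c hLy)) hdiv2 hjy

theorem ptg : PtgStmt := by
  intro α _ R m s c a β C e hR hm hs
  have hPtl : PtlStmt := Pool.Agent.Helper3.DT.ptl
  have hL : PolyTime fun x => lg (s x) := (hPtl α _ _ _ hs hs hs).1
  have hL2 : ∀ x, 2 ≤ lg (s x) := fun x => lg_two _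
  have hcap : PolyTime fun x => (4 * s x + 4) ^ C :=
    PolyTime.pow (PolyTime.add (PolyTime.mul (PolyTime.const 4) hs) (PolyTime.const 4)) C
  have hzn : PolyTime fun x => zng c a β C (s x) := by
    unfold zng Zc
    refine PolyTime.mul (PolyTime.mul ?_ ?_) ?_
    · exact (hPtl α _ _ _ hcap (PolyTime.add (ptt hPtl a hL) (PolyTime.const 2)) (pPP hPtl c hL)).2.2.2.1
    · exact (hPtl α _ _ _ hcap (pdd hPtl a hL hL2) (pRR hPtl c hL)).2.2.2.1
    · exact (hPtl α _ _ _ hcap (pKK hPtl c a β hL) (PolyTime.mul (pqn c hL) (pPP hPtl c hL))).2.2.2.1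
  have hsd := psdg R m hR hm c a β hL hL2
  have han : PolyTime fun x => ang (R x) (m x) c a β C (s x) := by
    unfold ang
    exact PolyTime.length (PolyTime.filter (PolyTime.range hzn) hsd)
  unfold apg
  exact PolyTime.div (PolyTime.add (PolyTime.mul (PolyTime.mul (PolyTime.const 2)
    (PolyTime.pow hL e)) han) hzn) (PolyTime.mul (PolyTime.const 2) hzn)

end Pool.Agent.Helper59.AO
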